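import Mathlib

/-!
# A finitely generated algebra of quadratic growth without a greatest nilpotent ideal

The algebra of operators on the space with basis e_0, e_1, ... generated by the shift and by the
projection onto the span of the e_i with i a power of two.
-/

set_option autoImplicit false

namespace Pool.Agent.Y564.GK

open Finsupp

/-- the space -/
abbrev E := ℕ →₀ ℚ

/-- the operators -/
abbrev Op := Module.End ℚ E

/-- powers of two -/
def isP (i : ℕ) : Prop := ∃ s : ℕ, i = 2 ^ s

/-- basis vector -/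
noncomputable abbrev e (i : ℕ) : E := single i 1

/-- operator with prescribed values -/
noncomputable def op (g : ℕ → E) : Op := Finsupp.linearCombination ℚ g

@[simp] lemma op_e (g : ℕ → E) (i : ℕ) : op g (e i) = g i := by
  simp [op, e]

lemma op_ext {f g : Op} (h : ∀ i, f (e i) = g (e i)) : f = g := by
  apply Finsupp.lhom_ext'
  intro a
  apply LinearMap.ext_ring
  simpa [e] using h a

/-- the shift -/
noncomputable def S : Op := op (fun i => e (i + 1))

open Classical in
/-- the projection -/
noncomputable def D : Op := op (fun i => if isP i then e i else 0)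

open Classical in
/-- matrix unit sending e_p to e_q -/
noncomputable def U (p q : ℕ) : Op := op (fun i => if i = p then e q else 0)

@[simp] lemma S_e (i : ℕ) : S (e i) = e (i + 1) := by simp [S]

open Classical in
@[simp] lemma D_e (i : ℕ) : D (e i) = if isP i then e i else 0 := by simp [D]

open Classical in
@[simp] lemma U_e (p q i : ℕ) : U p q (e i) = if i = p then e q else 0 := by simp [U]

lemma Spow_e (a i : ℕ) : (S ^ a) (e i) = e (i + a) := by
  induction a generalizing i with
  | zero => simp
  | succ a ih =>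
    rw [pow_succ, Module.End.mul_apply, S_e, ih]
    congr 1; ring

lemma two_pow_bound {s t a : ℕ} (ha : 0 < a) (h : 2 ^ s + a = 2 ^ t) : 2 ^ s ≤ a := by
  have h1 : s < t := by
    have : (2:ℕ) ^ s < 2 ^ t := by omega
    exact (Nat.pow_lt_pow_iff_right (by norm_num)).1 this
  have h2 : (2:ℕ) ^ (s + 1) ≤ 2 ^ t := Nat.pow_le_pow_right (by norm_num) h1
  rw [pow_succ] at h2
  omega

lemma two_pow_unique_aux {s t s' t' a : ℕ} (ha : 0 < a) (h : 2 ^ s + a = 2 ^ t)
    (h' : 2 ^ s' + a = 2 ^ t') : ¬ s < s' := by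
  intro hlt
  have h1 : s < t := by
    have : (2:ℕ) ^ s < 2 ^ t := by omega
    exact (Nat.pow_lt_pow_iff_right (by norm_num)).1 this
  have h2 : s' < t' := by
    have : (2:ℕ) ^ s' < 2 ^ t' := by omega
    exact (Nat.pow_lt_pow_iff_right (by norm_num)).1 this
  have e1 : (2:ℕ) ^ (s + 1) ∣ 2 ^ t := pow_dvd_pow 2 h1
  have e2 : (2:ℕ) ^ (s + 1) ∣ 2 ^ t' := pow_dvd_pow 2 (by omega)
  have e3 : (2:ℕ) ^ (s + 1) ∣ 2 ^ s' := pow_dvd_pow 2 hlt
  have e4 : 2 ^ t' + 2 ^ s = 2 ^ t + 2 ^ s' := by omega
  have e5 : (2:ℕ) ^ (s + 1) ∣ 2 ^ s := by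
    have : (2:ℕ) ^ (s + 1) ∣ 2 ^ t' + 2 ^ s := by
      rw [e4]; exact dvd_add e1 e3
    exact (Nat.dvd_add_right e2).1 this
  have := Nat.le_of_dvd (by positivity) e5
  rw [pow_succ] at this
  have h0 : 0 < (2:ℕ) ^ s := by positivity
  omega

lemma two_pow_unique {s t s' t' a : ℕ} (ha : 0 < a) (h : 2 ^ s + a = 2 ^ t)
    (h' : 2 ^ s' + a = 2 ^ t') : s = s' := by
  have h1 := two_pow_unique_aux ha h h'
  have h2 := two_pow_unique_aux ha h' h
  omega

/-- two projections separated by a positive shift give zero or one matrix unit -/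
lemma DSD {a : ℕ} (ha : 0 < a) :
    D * S ^ a * D = 0 ∨ ∃ p, p ≤ a ∧ D * S ^ a * D = U p (p + a) := by
  classical
  by_cases h : ∃ s t : ℕ, 2 ^ s + a = 2 ^ t
  · obtain ⟨s, t, hst⟩ := h
    right
    refine ⟨2 ^ s, two_pow_bound ha hst, ?_⟩
    apply op_ext
    intro i
    simp only [Module.End.mul_apply, D_e, U_e]
    by_cases hi : isP i
    · rw [if_pos hi, Spow_e, D_e]
      by_cases hj : isP (i + a)
      · rw [if_pos hj]
        obtain ⟨s', rfl⟩ := hi
        obtain ⟨t', ht'⟩ := hj
        have := two_pow_unique ha hst ht'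
        subst this
        simp
      · rw [if_neg hj]
        rw [if_neg]
        rintro rfl
        exact hj ⟨t, hst⟩
    · rw [if_neg hi]
      rw [if_neg]
      · simp
      · rintro rfl
        exact hi ⟨s, rfl⟩
  · left
    apply op_ext
    intro i
    simp only [Module.End.mul_apply, D_e, LinearMap.zero_apply]
    by_cases hi : isP i
    · rw [if_pos hi, Spow_e, D_e, if_neg]
      rintro ⟨t, ht⟩
      obtain ⟨s, rfl⟩ := hi
      exact h ⟨s, t, ht⟩
    · rw [if_neg hi]; simp

lemma DD : D * D = D := by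
  classical
  apply op_ext
  intro i
  simp only [Module.End.mul_apply, D_e]
  by_cases hi : isP i
  · rw [if_pos hi, D_e, if_pos hi]
  · rw [if_neg hi]; simp

lemma U_Spow (p q b : ℕ) : U p q * S ^ b = 0 ∨ U p q * S ^ b = U (p - b) q := by
  classical
  by_cases h : b ≤ p
  · right
    apply op_ext
    intro i
    rw [Module.End.mul_apply, Spow_e, U_e, U_e]
    have : i + b = p ↔ i = p - b := by omega
    simp [this]
  · left
    apply op_ext
    intro i
    rw [Module.End.mul_apply, Spow_e, U_e, if_neg (by omega)]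
    simp

lemma D_U (p q : ℕ) : D * U p q = 0 ∨ D * U p q = U p q := by
  classical
  by_cases h : isP q
  · right
    apply op_ext
    intro i
    rw [Module.End.mul_apply, U_e]
    by_cases hi : i = p
    · rw [if_pos hi, D_e, if_pos h]
    · rw [if_neg hi]; simp
  · left
    apply op_ext
    intro i
    rw [Module.End.mul_apply, U_e]
    by_cases hi : i = p
    · rw [if_pos hi, D_e, if_neg h]; simp
    · rw [if_neg hi]; simp

lemma S_U (p q : ℕ) : S * U p q = U p (q + 1) := by
  classical
  apply op_ext
  intro i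
  rw [Module.End.mul_apply, U_e, U_e]
  by_cases hi : i = p
  · rw [if_pos hi, if_pos hi, S_e]
  · rw [if_neg hi, if_neg hi]; simp

open Classical in
/-- the spanning set at stage n -/
noncomputable def G (n : ℕ) : Finset Op :=
  (Finset.range (n + 1)).image (fun a => S ^ a) ∪
  ((Finset.range (n + 1)) ×ˢ (Finset.range (n + 1))).image (fun x => S ^ x.1 * D * S ^ x.2) ∪
  ((Finset.range (n + 1)) ×ˢ (Finset.range (3 * n + 1))).image (fun x => U x.1 x.2)

lemma mem_G1 {n a : ℕ} (h : a ≤ n) : S ^ a ∈ G n := by
  classical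
  unfold G
  rw [Finset.mem_union, Finset.mem_union]
  left; left
  rw [Finset.mem_image]
  exact ⟨a, by rw [Finset.mem_range]; omega, rfl⟩

lemma mem_G2 {n a b : ℕ} (h : a ≤ n) (h' : b ≤ n) : S ^ a * D * S ^ b ∈ G n := by
  classical
  unfold G
  rw [Finset.mem_union, Finset.mem_union]
  left; right
  rw [Finset.mem_image]
  exact ⟨(a, b), by rw [Finset.mem_product, Finset.mem_range, Finset.mem_range]; constructor <;> simp <;> omega, rfl⟩

lemma mem_G3 {n p q : ℕ} (h : p ≤ n) (h' : q ≤ 3 * n) : U p q ∈ G n := by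
  classical
  unfold G
  rw [Finset.mem_union, Finset.mem_union]
  right
  rw [Finset.mem_image]
  exact ⟨(p, q), by rw [Finset.mem_product, Finset.mem_range, Finset.mem_range]; constructor <;> simp <;> omega, rfl⟩

lemma G_cases {n : ℕ} {g : Op} (h : g ∈ G n) :
    (∃ a, a ≤ n ∧ g = S ^ a) ∨ (∃ a b, a ≤ n ∧ b ≤ n ∧ g = S ^ a * D * S ^ b) ∨
      ∃ p q, p ≤ n ∧ q ≤ 3 * n ∧ g = U p q := by
  classical
  unfold G at h
  rw [Finset.mem_union, Finset.mem_union, Finset.mem_image, Finset.mem_image, Finset.mem_image] at h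
  rcases h with (⟨a, ha, rfl⟩ | ⟨⟨a, b⟩, hab, rfl⟩) | ⟨⟨p, q⟩, hpq, rfl⟩
  · rw [Finset.mem_range] at ha
    exact Or.inl ⟨a, by omega, rfl⟩
  · rw [Finset.mem_product, Finset.mem_range, Finset.mem_range] at hab
    obtain ⟨h1, h2⟩ := hab
    exact Or.inr (Or.inl ⟨a, b, by simpa [Nat.lt_succ_iff] using h1, by simpa [Nat.lt_succ_iff] using h2, rfl⟩)
  · rw [Finset.mem_product, Finset.mem_range, Finset.mem_range] at hpq
    obtain ⟨h1, h2⟩ := hpq
    exact Or.inr (Or.inr ⟨p, q, by simpa [Nat.lt_succ_iff] using h1, by simpa [Nat.lt_succ_iff] using h2, rfl⟩)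

lemma G_card (n : ℕ) : (G n).card ≤ 5 * (n + 1) ^ 2 := by
  classical
  unfold G
  refine (Finset.card_union_le _ _).trans ?_
  have h1 := Finset.card_union_le ((Finset.range (n + 1)).image (fun a => S ^ a))
    (((Finset.range (n + 1)) ×ˢ (Finset.range (n + 1))).image (fun x => S ^ x.1 * D * S ^ x.2))
  have h2 : ((Finset.range (n + 1)).image (fun a => S ^ a)).card ≤ n + 1 := by
    refine Finset.card_image_le.trans ?_
    simp
  have h3 : (((Finset.range (n + 1)) ×ˢ (Finset.range (n + 1))).image
      (fun x => S ^ x.1 * D * S ^ x.2)).card ≤ (n + 1) * (n + 1) := by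
    refine Finset.card_image_le.trans ?_
    simp
  have h4 : (((Finset.range (n + 1)) ×ˢ (Finset.range (3 * n + 1))).image
      (fun x => U x.1 x.2)).card ≤ (n + 1) * (3 * n + 1) := by
    refine Finset.card_image_le.trans ?_
    simp
  nlinarith

lemma G_mono {n : ℕ} : G n ⊆ G (n + 1) := by
  intro g hg
  rcases G_cases hg with ⟨a, ha, rfl⟩ | ⟨a, b, ha, hb, rfl⟩ | ⟨p, q, hp, hq, rfl⟩
  · exact mem_G1 (by omega)
  · exact mem_G2 (by omega) (by omega)
  · exact mem_G3 (by omega) (by omega)

lemma S_mul_G {n : ℕ} {g : Op} (h : g ∈ G n) : S * g ∈ Submodule.span ℚ (G (n + 1) : Set Op) := by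
  apply Submodule.subset_span
  rcases G_cases h with ⟨a, ha, rfl⟩ | ⟨a, b, ha, hb, rfl⟩ | ⟨p, q, hp, hq, rfl⟩
  · rw [← pow_succ']; exact mem_G1 (by omega)
  · rw [← mul_assoc, ← mul_assoc, ← pow_succ']; exact mem_G2 (by omega) (by omega)
  · rw [S_U]; exact mem_G3 (by omega) (by omega)

lemma D_mul_G {n : ℕ} {g : Op} (h : g ∈ G n) : D * g ∈ Submodule.span ℚ (G (n + 1) : Set Op) := by
  rcases G_cases h with ⟨a, ha, rfl⟩ | ⟨a, b, ha, hb, rfl⟩ | ⟨p, q, hp, hq, rfl⟩
  · apply Submodule.subset_span
    have := mem_G2 (n := n + 1) (a := 0) (b := a) (by omega) (by omega)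
    simpa using this
  · rcases Nat.eq_zero_or_pos a with rfl | hpos
    · apply Submodule.subset_span
      have := mem_G2 (n := n + 1) (a := 0) (b := b) (by omega) (by omega)
      rw [pow_zero, one_mul] at this ⊢
      rw [← mul_assoc, DD]
      exact this
    · rw [← mul_assoc, ← mul_assoc]
      rcases DSD hpos with h0 | ⟨p, hp, h1⟩
      · rw [h0, zero_mul]; exact Submodule.zero_mem _
      · rw [h1]
        rcases U_Spow p (p + a) b with h2 | h2
        · rw [h2]; exact Submodule.zero_mem _
        · rw [h2]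
          apply Submodule.subset_span
          exact mem_G3 (by omega) (by omega)
  · rcases D_U p q with h0 | h0
    · rw [h0]; exact Submodule.zero_mem _
    · rw [h0]
      apply Submodule.subset_span
      exact mem_G3 (by omega) (by omega)

/-- the generators -/
def gens : Set Op := {1, S, D}

/-- the algebra -/
noncomputable abbrev A : Type := ↥(Algebra.adjoin ℚ (gens))

lemma mem1 : (1 : Op) ∈ Algebra.adjoin ℚ gens := Subalgebra.one_mem _
lemma memS : S ∈ Algebra.adjoin ℚ gens := Algebra.subset_adjoin (by simp [gens])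
lemma memD : D ∈ Algebra.adjoin ℚ gens := Algebra.subset_adjoin (by simp [gens])

/-- the inclusion -/
noncomputable abbrev inc : A →ₐ[ℚ] Op := (Algebra.adjoin ℚ gens).val

/-- generators inside the algebra -/
def gensA : Set A := {1, ⟨S, memS⟩, ⟨D, memD⟩}

lemma adjoin_gensA : Algebra.adjoin ℚ gensA = ⊤ := by
  have h : gensA = (fun x : A => (x : Op)) ⁻¹' gens := by
    ext x
    simp only [gensA, gens, Set.mem_insert_iff, Set.mem_singleton_iff, Set.mem_preimage]
    constructor
    · rintro (rfl | rfl | rfl)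
      · left; rfl
      · right; left; rfl
      · right; right; rfl
    · rintro (h | h | h)
      · left; exact Subtype.ext h
      · right; left; exact Subtype.ext h
      · right; right; exact Subtype.ext h
  rw [h]
  exact Algebra.adjoin_adjoin_coe_preimage

/-- the generating space -/
noncomputable def V : Submodule ℚ A := Submodule.span ℚ gensA

lemma V_pow_le (n : ℕ) : (V ^ n).map inc.toLinearMap ≤ Submodule.span ℚ (G n : Set Op) := by
  induction n with
  | zero =>
    rw [pow_zero, Submodule.one_eq_span, Submodule.map_span, Submodule.span_le]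
    rintro _ ⟨x, hx, rfl⟩
    rw [Set.mem_singleton_iff] at hx
    subst hx
    apply Submodule.subset_span
    have := mem_G1 (n := 0) (a := 0) le_rfl
    simpa using this
  | succ n ih =>
    rw [pow_succ', Submodule.map_mul, V, Submodule.map_span]
    rw [Submodule.mul_le]
    intro m hm w hw
    have hw' := ih hw
    clear hw
    -- reduce m to generators
    induction hm using Submodule.span_induction with
    | zero => rw [zero_mul]; exact Submodule.zero_mem _
    | add x y _ _ hx hy => rw [add_mul]; exact Submodule.add_mem _ hx hy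
    | smul c x _ hx => rw [smul_mul_assoc]; exact Submodule.smul_mem _ c hx
    | mem x hx =>
      obtain ⟨y, hy, rfl⟩ := hx
      induction hw' using Submodule.span_induction with
      | zero => rw [mul_zero]; exact Submodule.zero_mem _
      | add x z _ _ hx hz => rw [mul_add]; exact Submodule.add_mem _ hx hz
      | smul c x _ hx => rw [mul_smul_comm]; exact Submodule.smul_mem _ c hx
      | mem g hg =>
        simp only [gensA, Set.mem_insert_iff, Set.mem_singleton_iff] at hy
        rcases hy with rfl | rfl | rfl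
        · have : (inc.toLinearMap (1 : A)) * g = g := by
            simp
          rw [this]
          exact Submodule.subset_span (G_mono hg)
        · exact S_mul_G hg
        · exact D_mul_G hg

lemma finrank_V_pow (n : ℕ) : Module.finrank ℚ ↥(V ^ n) ≤ 5 * (n + 1) ^ 2 := by
  have hinj : Function.Injective inc.toLinearMap := Subtype.val_injective
  have h1 : Module.finrank ℚ ↥((V ^ n).map inc.toLinearMap) = Module.finrank ℚ ↥(V ^ n) :=
    (Submodule.equivMapOfInjective _ hinj (V ^ n)).finrank_eq.symm
  rw [← h1]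
  refine (Submodule.finrank_mono (V_pow_le n)).trans ?_
  exact (finrank_span_finset_le_card (G n)).trans (G_card n)

/-- coefficients of operators -/
noncomputable def cf (M : Op) (i j : ℕ) : ℚ := (M (e j)) i

lemma apply_eq (M : Op) (v : E) (i : ℕ) : (M v) i = v.sum (fun l c => c * cf M i l) := by
  induction v using Finsupp.induction_linear with
  | zero => simp
  | add f g hf hg =>
    rw [map_add, Finsupp.add_apply, hf, hg, Finsupp.sum_add_index']
    · intro a; simp
    · intro a b c; ring
  | single a b =>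
    rw [Finsupp.sum_single_index (by simp)]
    have : (single a b : E) = b • e a := by simp [e]
    rw [this, map_smul]
    simp [cf]

lemma cf_mul (M L : Op) (i j : ℕ) : cf (M * L) i j = (L (e j)).sum (fun l c => c * cf M i l) := by
  rw [cf, Module.End.mul_apply, apply_eq]

lemma cf_mul_eq_zero {M L : Op} {i j : ℕ} (h : ∀ l, cf L l j = 0 ∨ cf M i l = 0) :
    cf (M * L) i j = 0 := by
  rw [cf_mul]
  apply Finset.sum_eq_zero
  intro l _
  rcases h l with h1 | h1
  · change (L (e j)) l * cf M i l = 0
    have : (L (e j)) l = 0 := h1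
    rw [this, zero_mul]
  · change (L (e j)) l * cf M i l = 0
    rw [h1, mul_zero]

lemma eq_zero_of_cf {M : Op} (h : ∀ i j, cf M i j = 0) : M = 0 := by
  apply op_ext
  intro j
  ext i
  simpa [cf] using h i j

/-- lower triangular operators -/
def LT : Subalgebra ℚ Op where
  carrier := {M | ∀ i j, i < j → cf M i j = 0}
  mul_mem' := by
    intro M L hM hL i j hij
    apply cf_mul_eq_zero
    intro l
    rcases lt_or_ge l j with h | h
    · exact Or.inl (hL l j h)
    · exact Or.inr (hM i l (by omega))
  add_mem' := by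
    intro M L hM hL i j hij
    have h1 := hM i j hij
    have h2 := hL i j hij
    simp only [cf, LinearMap.add_apply, Finsupp.add_apply] at *
    rw [h1, h2, add_zero]
  algebraMap_mem' := by
    intro r i j hij
    simp only [cf, Module.algebraMap_end_apply, Finsupp.smul_apply, e]
    rw [Finsupp.single_eq_of_ne (by omega)]
    simp

lemma A_le_LT : Algebra.adjoin ℚ gens ≤ LT := by
  classical
  apply Algebra.adjoin_le
  rintro x (rfl | rfl | rfl)
  · exact LT.one_mem
  · intro i j hij
    simp only [cf, S_e, e]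
    rw [Finsupp.single_eq_of_ne (by omega)]
  · intro i j hij
    simp only [cf, D_e]
    split_ifs
    · simp only [e]; rw [Finsupp.single_eq_of_ne (by omega)]
    · rfl

lemma tri (a : A) {i j : ℕ} (h : i < j) : cf (a : Op) i j = 0 := A_le_LT a.2 i j h

/-- the ideal of operators supported in columns at most p and rows at least q -/
noncomputable def T (p q : ℕ) : TwoSidedIdeal A :=
  TwoSidedIdeal.mk' {a : A | ∀ i j, cf (a : Op) i j ≠ 0 → j ≤ p ∧ q ≤ i}
    (by intro i j h; exact absurd (by simp [cf]) h)
    (by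
      intro x y hx hy i j h
      by_cases h1 : cf (x : Op) i j = 0
      · apply hy i j
        intro h2
        apply h
        simp only [cf, AddMemClass.coe_add, LinearMap.add_apply, Finsupp.add_apply] at *
        rw [h1, h2, add_zero]
      · exact hx i j h1)
    (by
      intro x hx i j h
      apply hx i j
      intro h2
      apply h
      simp only [cf, NegMemClass.coe_neg, LinearMap.neg_apply, Finsupp.neg_apply] at *
      rw [h2, neg_zero])
    (by
      intro x y hy i j h
      by_contra hcon
      apply h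
      rw [show ((x * y : A) : Op) = (x : Op) * (y : Op) from rfl]
      apply cf_mul_eq_zero
      intro l
      by_contra hl
      push Not at hl
      obtain ⟨h1, h2⟩ := hl
      have h3 := hy l j h1
      have h4 : l ≤ i := by
        by_contra h5
        exact h2 (tri x (by omega))
      exact hcon ⟨h3.1, by omega⟩)
    (by
      intro x y hx i j h
      by_contra hcon
      apply h
      rw [show ((x * y : A) : Op) = (x : Op) * (y : Op) from rfl]
      apply cf_mul_eq_zero
      intro l
      by_contra hl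
      push Not at hl
      obtain ⟨h1, h2⟩ := hl
      have h3 := hx i l h2
      have h4 : j ≤ l := by
        by_contra h5
        exact h1 (tri y (by omega))
      exact hcon ⟨by omega, h3.2⟩)

lemma mem_T {p q : ℕ} {a : A} : a ∈ T p q ↔ ∀ i j, cf (a : Op) i j ≠ 0 → j ≤ p ∧ q ≤ i := by
  unfold T
  rw [TwoSidedIdeal.mem_mk']
  rfl

/-- the ideal has square zero -/
lemma T_sq {p q : ℕ} (hpq : p < q) {a b : A} (ha : a ∈ T p q) (hb : b ∈ T p q) : a * b = 0 := by
  rw [mem_T] at ha hb
  apply Subtype.ext
  rw [show ((a * b : A) : Op) = (a : Op) * (b : Op) from rfl]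
  apply eq_zero_of_cf
  intro i j
  apply cf_mul_eq_zero
  intro l
  by_contra hl
  push Not at hl
  obtain ⟨h1, h2⟩ := hl
  have h3 := hb l j h1
  have h4 := ha i l h2
  omega

/-- the matrix unit e_(2^t) to e_(2^(t+1)) -/
noncomputable def F (t : ℕ) : A :=
  ⟨D, memD⟩ * ⟨S, memS⟩ ^ (2 ^ t) * ⟨D, memD⟩

lemma F_coe (t : ℕ) : (F t : Op) = U (2 ^ t) (2 ^ (t + 1)) := by
  classical
  have h : (F t : Op) = D * S ^ (2 ^ t) * D := rfl
  rw [h]
  apply op_ext
  intro i
  simp only [Module.End.mul_apply, D_e, U_e]
  by_cases hi : isP i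
  · rw [if_pos hi, Spow_e, D_e]
    obtain ⟨s, rfl⟩ := hi
    by_cases hj : isP (2 ^ s + 2 ^ t)
    · obtain ⟨r, hr⟩ := hj
      have h1 : (2:ℕ) ^ t + 2 ^ t = 2 ^ (t + 1) := by rw [pow_succ]; ring
      have := two_pow_unique (by positivity) h1 hr
      subst this
      rw [if_pos ⟨r, hr⟩, if_pos rfl, h1]
    · rw [if_neg hj, if_neg]
      intro hst
      apply hj
      refine ⟨t + 1, ?_⟩
      rw [hst, pow_succ]; ring
  · rw [if_neg hi, if_neg]
    · simp
    · rintro rfl
      exact hi ⟨t, rfl⟩

lemma F_mem (t : ℕ) : F t ∈ T (2 ^ t) (2 ^ (t + 1)) := by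
  classical
  rw [mem_T]
  intro i j h
  rw [F_coe, cf, U_e] at h
  by_cases hj : j = 2 ^ t
  · rw [if_pos hj] at h
    refine ⟨hj.le, ?_⟩
    by_contra hc
    apply h
    simp only [e]
    rw [Finsupp.single_eq_of_ne (by omega)]
  · rw [if_neg hj] at h
    exact absurd rfl h

lemma prod_F (m : ℕ) :
    (((List.ofFn (fun i : Fin m => F (m - 1 - i))).prod : A) : Op) (e 1) = e (2 ^ m) := by
  classical
  induction m with
  | zero => simp
  | succ m ih =>
    rw [List.ofFn_succ, List.prod_cons]
    rw [show ∀ x y : A, ((x * y : A) : Op) = (x : Op) * (y : Op) from fun _ _ => rfl]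
    rw [Module.End.mul_apply]
    have h1 : (fun i : Fin m => F (m + 1 - 1 - (i.succ : Fin (m + 1)))) =
        (fun i : Fin m => F (m - 1 - i)) := by
      funext i
      congr 1
      simp only [Fin.val_succ]
      omega
    rw [h1, ih]
    have h2 : m + 1 - 1 - ((0 : Fin (m + 1)) : ℕ) = m := by simp
    rw [h2, F_coe, U_e, if_pos rfl]

theorem main :
    ¬ (∀ (k : Type) [Field k] (A : Type) [Ring A] [Algebra k A],
      Algebra.FiniteType k A →
      (∃ V : Submodule k A, FiniteDimensional k V ∧ (1 : A) ∈ V ∧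
          Algebra.adjoin k (V : Set A) = ⊤ ∧
          ∃ C d : ℕ, ∀ n : ℕ, Module.finrank k ↥(V ^ n) ≤ C * (n + 1) ^ d) →
      ∃ N : TwoSidedIdeal A,
        (∃ m : ℕ, ∀ f : Fin m → A, (∀ i, f i ∈ N) → (List.ofFn f).prod = 0) ∧
        ∀ I : TwoSidedIdeal A,
          (∃ m : ℕ, ∀ f : Fin m → A, (∀ i, f i ∈ I) → (List.ofFn f).prod = 0) → I ≤ N) := by
  intro hall
  have hfin : Set.Finite gensA := by
    unfold gensA
    exact Set.toFinite _
  have hft : Algebra.FiniteType ℚ A := by
    refine ⟨⟨hfin.toFinset, ?_⟩⟩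
    rw [Set.Finite.coe_toFinset]
    exact adjoin_gensA
  obtain ⟨N, ⟨m, hm⟩, hN⟩ := hall ℚ A hft ⟨V, by
      unfold V
      exact FiniteDimensional.span_of_finite ℚ hfin, by
      apply Submodule.subset_span
      simp [gensA], by
      rw [eq_top_iff, ← adjoin_gensA]
      apply Algebra.adjoin_mono
      exact Submodule.subset_span, 5, 2, finrank_V_pow⟩
  have hFN : ∀ t, F t ∈ N := by
    intro t
    apply hN (T (2 ^ t) (2 ^ (t + 1))) _ (F_mem t)
    refine ⟨2, fun f hf => ?_⟩
    rw [List.ofFn_succ, List.ofFn_succ, List.ofFn_zero, List.prod_cons, List.prod_cons,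
      List.prod_nil, mul_one]
    exact T_sq (Nat.pow_lt_pow_right (by norm_num) (by omega)) (hf _) (hf _)
  have h := hm (fun i : Fin m => F (m - 1 - i)) (fun i => hFN _)
  have h2 := prod_F m
  rw [h] at h2
  have h3 : (0 : E) = e (2 ^ m) := h2
  have h4 := DFunLike.congr_fun h3 (2 ^ m)
  simp [e] at h4

end Pool.Agent.Y564.GK
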